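import Pool.Agent.H503R3.FPR.Bound
import Pool.Agent.H503R3.FPR.Defs

/-!
# Regular J-2 rings of prime characteristic are F-pure regular
-/

set_option autoImplicit false

namespace Pool.Agent.Results.MP_9ff724_al.JTwoRegular

open Pool.Agent.H503R3.FPR TensorProduct IsLocalRing

universe u

/-- A flat module and an element outside `m N` for all maximal ideals `m`. -/
theorem pure_of_flat {R : Type u} [CommRing R] {N : Type u} [AddCommGroup N] [Module R N]
    [Module.Flat R N] (f : R →ₗ[R] N)
    (h : ∀ m : Ideal R, m.IsMaximal → f 1 ∉ (m • ⊤ : Submodule R N)) : IsPure f := by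
  intro P _ _
  rw [injective_iff_map_eq_zero]
  intro x hx
  -- `x = 1 ⊗ z`
  obtain ⟨z, rfl⟩ : ∃ z : P, x = 1 ⊗ₜ[R] z :=
    ⟨TensorProduct.lid R P x, by
      rw [← TensorProduct.lid_symm_apply, LinearEquiv.symm_apply_apply]⟩
  rw [LinearMap.rTensor_tmul] at hx
  -- the annihilator of `z`
  set J : Ideal R := LinearMap.ker (LinearMap.toSpanSingleton R P z) with hJ
  by_cases hJtop : J = ⊤
  · have h1 : (1 : R) ∈ J := by rw [hJtop]; exact Submodule.mem_top
    rw [hJ, LinearMap.mem_ker, LinearMap.toSpanSingleton_apply, one_smul] at h1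
    rw [h1, TensorProduct.tmul_zero]
  · exfalso
    obtain ⟨m, hm, hJm⟩ := Ideal.exists_le_maximal J hJtop
    apply h m hm
    refine Submodule.smul_mono_left hJm ?_
    let i : (R ⧸ J) →ₗ[R] P := Submodule.liftQ J (LinearMap.toSpanSingleton R P z) le_rfl
    have hi : Function.Injective i := by
      rw [← LinearMap.ker_eq_bot]
      exact Submodule.ker_liftQ_eq_bot _ _ _ le_rfl
    have h1 : Function.Injective (i.lTensor N) :=
      Module.Flat.lTensor_preserves_injective_linearMap _ hi
    have h2 : (f 1) ⊗ₜ[R] (Submodule.Quotient.mk 1 : R ⧸ J) = 0 := by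
      apply h1
      rw [LinearMap.lTensor_tmul, map_zero]
      have h3 : i (Submodule.Quotient.mk 1) = z := by
        change LinearMap.toSpanSingleton R P z 1 = z
        rw [LinearMap.toSpanSingleton_apply, one_smul]
      rw [h3]
      exact hx
    have h4 := congrArg (TensorProduct.tensorQuotEquivQuotSMul N J) h2
    rw [map_zero] at h4
    have h5 : TensorProduct.tensorQuotEquivQuotSMul N J
        ((f 1) ⊗ₜ[R] (Submodule.Quotient.mk 1 : R ⧸ J)) = Submodule.Quotient.mk (f 1) := by
      have := TensorProduct.tensorQuotEquivQuotSMul_tmul_mk J (f 1) (1 : R)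
      rw [one_smul] at this
      exact this
    rw [h5, Submodule.Quotient.mk_eq_zero] at h4
    exact h4

variable (p : ℕ) [Fact p.Prime] {R : Type u} [CommRing R] [CharP R p]

theorem flat_frobPush [IsRegularRing R] (e : ℕ) : Module.Flat R (FrobPush p e R) :=
  frob_flat p R e

theorem mem_map_of_mem_smul (e : ℕ) (m : Ideal R) (s : R)
    (hs : (s : FrobPush p e R) ∈ (m • ⊤ : Submodule R (FrobPush p e R))) :
    s ∈ m.map (iterateFrobenius R p e) := by
  refine Submodule.smul_induction_on (p := fun s : FrobPush p e R =>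
    (s : R) ∈ m.map (iterateFrobenius R p e)) hs ?_ ?_
  · intro r hr n _
    have key : ∀ n : R, iterateFrobenius R p e r * n ∈ m.map (iterateFrobenius R p e) :=
      fun n => Ideal.mul_mem_right _ _ (Ideal.mem_map_of_mem _ hr)
    exact key n
  · intro a b ha hb
    have key : ∀ a b : R, a ∈ m.map (iterateFrobenius R p e) →
        b ∈ m.map (iterateFrobenius R p e) → a + b ∈ m.map (iterateFrobenius R p e) :=
      fun a b ha hb => Ideal.add_mem _ ha hb
    exact key a b ha hb

theorem genReg_of_jTwo {R : Type u} [CommRing R] (hJ : IsJTwo R) : GenReg R := by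
  intro P hP
  have hopen := hJ (R ⧸ P) inferInstance
  have hdom : IsDomain (R ⧸ P) := (Ideal.Quotient.isDomain_iff_prime _).2 hP
  let η : PrimeSpectrum (R ⧸ P) := ⟨⊥, Ideal.isPrime_bot⟩
  have hη : η ∈ {Q : PrimeSpectrum (R ⧸ P) |
      IsRegularLocalRing (Localization.AtPrime Q.asIdeal)} := by
    change IsRegularLocalRing (Localization.AtPrime (⊥ : Ideal (R ⧸ P)))
    let _ : Field (Localization.AtPrime (⊥ : Ideal (R ⧸ P))) := IsField.toField <| by
      simp [isField_iff_maximalIdeal_eq, ← Localization.AtPrime.map_eq_maximalIdeal]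
    infer_instance
  obtain ⟨_, ⟨g', rfl⟩, hg1, hg2⟩ :=
    PrimeSpectrum.isTopologicalBasis_basic_opens.exists_subset_of_mem_open hη hopen
  obtain ⟨g, rfl⟩ := Ideal.Quotient.mk_surjective g'
  refine ⟨g, ?_, ?_⟩
  · intro hg
    apply hg1
    change Ideal.Quotient.mk P g ∈ (⊥ : Ideal (R ⧸ P))
    rw [Ideal.mem_bot, Ideal.Quotient.eq_zero_iff_mem]
    exact hg
  · intro Q hQ hPQ hgQ h
    refine hg2 (a := ⟨Q.map (Ideal.Quotient.mk P), h⟩) ?_
    change Ideal.Quotient.mk P g ∉ Q.map (Ideal.Quotient.mk P)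
    rw [← Ideal.mem_comap, Ideal.comap_map_of_surjective _ Ideal.Quotient.mk_surjective,
      ← RingHom.ker_eq_comap_bot, Ideal.mk_ker, sup_eq_left.mpr hPQ]
    exact hgQ

/-- Every regular J-2 ring of prime characteristic (in particular every excellent regular ring of
prime characteristic) is F-pure regular. -/
theorem result (p : ℕ) [Fact p.Prime] (R : Type u) [CommRing R] [CharP R p] [IsRegularRing R]
    (hJ : IsJTwo R) : IsFPureRegular p R := by
  intro c hc
  have hloc : ∀ (P : Ideal R) [P.IsPrime], algebraMap R (Localization.AtPrime P) c ≠ 0 := by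
    intro P hP h0
    rw [IsLocalization.map_eq_zero_iff P.primeCompl] at h0
    obtain ⟨s, hs⟩ := h0
    obtain ⟨P0, hP0, hP0P⟩ := Ideal.exists_minimalPrimes_le (I := ⊥) (J := P) bot_le
    have h1 : (s : R) * c ∈ P0 := by rw [hs]; exact Ideal.zero_mem _
    rcases hP0.1.1.mem_or_mem h1 with h2 | h2
    · exact s.2 (hP0P h2)
    · exact hc P0 hP0 h2
  obtain ⟨k, hk⟩ := bound p (genReg_of_jTwo hJ) c hloc ⊥
  refine ⟨k + 1, by omega, ?_⟩
  have hflat := flat_frobPush p (R := R) (k + 1)
  refine pure_of_flat _ ?_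
  intro m hm hmem
  have hlt : k < p ^ (k + 1) :=
    lt_trans (Nat.lt_succ_self k) (Nat.lt_pow_self (Fact.out : p.Prime).one_lt)
  refine hk m hm.isPrime bot_le (k + 1) hlt (mem_map_of_mem_smul p (k + 1) m c ?_)
  have h1 : lam p (k + 1) R c 1 = (c : FrobPush p (k + 1) R) := by
    change c * 1 ^ p ^ (k + 1) = c
    rw [one_pow, mul_one]
  rw [← h1]
  exact hmem

end Pool.Agent.Results.MP_9ff724_al.JTwoRegular
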